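import Pool.Agent.N949.PG.Def

/-!
Project PG, job ELL: the area of a polygon close to an ellipse.
-/

set_option autoImplicit false

namespace Pool.Agent.N346.PG

open MeasureTheory Set
open Pool.Agent.N941.SP Pool.Agent.N949.PG

/-! ### Measure -/

/-- the half-open unit cell -/
def hc (c : ℤ × ℤ) : Set ℂ :=
  {z | ((c.1 : ℝ) ≤ z.re ∧ z.re < c.1 + 1) ∧ ((c.2 : ℝ) ≤ z.im ∧ z.im < c.2 + 1)}

theorem hc_eq (c : ℤ × ℤ) : hc c = Complex.measurableEquivRealProd ⁻¹'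
    (Ico (c.1 : ℝ) (c.1 + 1) ×ˢ Ico (c.2 : ℝ) (c.2 + 1)) := by
  ext z
  rfl

theorem hc_meas (c : ℤ × ℤ) : MeasurableSet (hc c) := by
  rw [hc_eq]
  exact Complex.measurableEquivRealProd.measurable (measurableSet_Ico.prod measurableSet_Ico)

theorem hc_vol (c : ℤ × ℤ) : volume (hc c) = 1 := by
  rw [hc_eq, Complex.volume_preserving_equiv_real_prod.measure_preimage
    (measurableSet_Ico.prod measurableSet_Ico).nullMeasurableSet, Measure.volume_eq_prod,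
    Measure.prod_prod, Real.volume_Ico, Real.volume_Ico]
  simp

theorem hc_floor {c : ℤ × ℤ} {z : ℂ} (h : z ∈ hc c) : c = (⌊z.re⌋, ⌊z.im⌋) := by
  obtain ⟨⟨h1, h2⟩, h3, h4⟩ := h
  apply Prod.ext
  · exact (Int.floor_eq_iff.2 ⟨h1, h2⟩).symm
  · exact (Int.floor_eq_iff.2 ⟨h3, h4⟩).symm

theorem vol_union (F : Finset (ℤ × ℤ)) : volume (⋃ c ∈ F, hc c) = F.card := by
  rw [measure_biUnion_finset]
  · simp [hc_vol]
  · intro c _ d _ hcd
    apply Set.disjoint_left.2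
    intro z h1 h2
    exact hcd ((hc_floor h1).trans (hc_floor h2).symm)
  · exact fun c _ => hc_meas c

/-- a diagonal map -/
def Am (p q : ℝ) : ℂ →ₗ[ℝ] ℂ where
  toFun z := ⟨p * z.re, q * z.im⟩
  map_add' x y := by apply Complex.ext <;> simp [mul_add]
  map_smul' r x := by apply Complex.ext <;> simp [mul_left_comm]

theorem Am_det (p q : ℝ) : LinearMap.det (Am p q) = p * q := by
  rw [← LinearMap.det_toMatrix Complex.basisOneI, Matrix.det_fin_two]
  simp [LinearMap.toMatrix_apply, Am]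

/-- the domain bounded by an ellipse -/
def EL (h S ρ : ℝ) : Set ℂ := {z | (2 * (z.re / S) + 1) ^ 2 + (2 * (z.im / S) / h) ^ 2 ≤ ρ}

theorem EL_vol (h S ρ : ℝ) (hh : 0 < h) (hS : 0 < S) (hρ : 0 ≤ ρ) :
    volume (EL h S ρ) = ENNReal.ofReal (Real.pi * h / 4 * S ^ 2 * ρ) := by
  have e : EL h S ρ = Am (2 / S) (2 / (S * h)) ⁻¹' Metric.closedBall (-1) (√ρ) := by
    ext z
    rw [mem_preimage, mem_closedBall_iff_norm, Complex.norm_def, Real.sqrt_le_sqrt_iff hρ,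
      Complex.normSq_apply]
    have e1 : (Am (2 / S) (2 / (S * h)) z - -1).re = 2 * (z.re / S) + 1 := by
      simp [Am]
      ring
    have e2 : (Am (2 / S) (2 / (S * h)) z - -1).im = 2 * (z.im / S) / h := by
      simp [Am]
      field_simp
    rw [e1, e2]
    show (2 * (z.re / S) + 1) ^ 2 + (2 * (z.im / S) / h) ^ 2 ≤ ρ ↔ _
    rw [pow_two, pow_two]
  have hd : LinearMap.det (Am (2 / S) (2 / (S * h))) ≠ 0 := by
    rw [Am_det]
    positivity
  rw [e, Measure.addHaar_preimage_linearMap _ hd, Complex.volume_closedBall, Am_det]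
  have e3 : |(2 / S * (2 / (S * h)))⁻¹| = h / 4 * S ^ 2 := by
    rw [abs_of_nonneg (by positivity)]
    field_simp
    norm_num
  have e4 : (NNReal.pi : ENNReal) = ENNReal.ofReal Real.pi := by
    rw [← NNReal.coe_real_pi, ENNReal.ofReal_coe_nnreal]
  rw [e3, e4, ← ENNReal.ofReal_pow (Real.sqrt_nonneg ρ), Real.sq_sqrt hρ,
    ← ENNReal.ofReal_mul hρ, ← ENNReal.ofReal_mul (by positivity)]
  congr 1
  ring

/-! ### Parity -/

/-- crossing of a column -/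
def Cr (G : ℕ → ℤ) (a : ℤ) (k : ℕ) : Prop := (G k = a ∧ G (k + 1) = a + 1) ∨ (G k = a + 1 ∧ G (k + 1) = a)

instance (G : ℕ → ℤ) (a : ℤ) : DecidablePred (Cr G a) := fun k => by unfold Cr; infer_instance

theorem par (G : ℕ → ℤ) (hG : ∀ k, |G (k + 1) - G k| ≤ 1) (a : ℤ) (n : ℕ) :
    Odd ((Finset.range n).filter (Cr G a)).card ↔ ¬ (G 0 ≤ a ↔ G n ≤ a) := by
  induction n with
  | zero => simp
  | succ n ih =>
    rw [Finset.range_add_one, Finset.filter_insert]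
    have h1 := abs_le.1 (hG n)
    by_cases h : Cr G a n
    · rw [if_pos h, Finset.card_insert_of_notMem (by simp), Nat.odd_add_one, ih]
      unfold Cr at h
      have h2 : (G n ≤ a ↔ ¬ G (n + 1) ≤ a) := by omega
      rw [h2]
      tauto
    · rw [if_neg h, ih]
      unfold Cr at h
      have h2 : (G n ≤ a ↔ G (n + 1) ≤ a) := by omega
      rw [h2]

open Classical in
theorem crd {m : ℕ} [NeZero m] (P : ZMod m → Prop) : Nat.card {k : ZMod m // P k} =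
    ((Finset.range m).filter (fun k : ℕ => P (k : ZMod m))).card := by
  rw [Nat.card_eq_fintype_card, Fintype.card_subtype]
  refine Finset.card_bij (fun k _ => k.val) ?_ ?_ ?_
  · intro k hk
    rw [Finset.mem_filter] at hk ⊢
    refine ⟨Finset.mem_range.2 (ZMod.val_lt k), ?_⟩
    rw [ZMod.natCast_zmod_val]
    exact hk.2
  · intro k _ l _ h
    exact ZMod.val_injective m h
  · intro k hk
    rw [Finset.mem_filter, Finset.mem_range] at hk
    refine ⟨(k : ZMod m), ?_, ZMod.val_cast_of_lt hk.1⟩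
    rw [Finset.mem_filter]
    exact ⟨Finset.mem_univ _, hk.2⟩

/-! ### Real inequalities -/

theorem core0 (h κ η A A' y : ℝ) (hh : 0 < h) (hκ1 : κ ≤ 1 / 2)
    (hη : 0 < η) (hη1 : η ≤ h ^ 2 * κ / 100) (hh1 : h ≤ 1) (hκ : 0 < κ) (hA : |A - A'| ≤ 4 * η)
    (hy : A' ^ 2 + (2 * y / h) ^ 2 = 1) : |A ^ 2 - A' ^ 2| ≤ κ / 2 ∧ |y| ≤ h / 2 := by
  have hh2 : h ^ 2 ≤ 1 := by nlinarith
  have hη2 : η ≤ κ / 100 := by nlinarith
  have hA1 : |A'| ≤ 1 := by
    apply abs_le_of_sq_le_sq _ zero_le_one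
    nlinarith [sq_nonneg (2 * y / h)]
  have hA2 := abs_le.1 hA1
  have hA3 := abs_le.1 hA
  constructor
  · rw [show A ^ 2 - A' ^ 2 = (A - A') * (A + A') by ring, abs_mul]
    have h1 : |A + A'| ≤ 3 := by
      rw [abs_le]
      constructor <;> linarith
    have h2 := abs_nonneg (A - A')
    have h3 := abs_nonneg (A + A')
    nlinarith
  · have h1 : |2 * y / h| ≤ 1 := by
      apply abs_le_of_sq_le_sq _ zero_le_one
      nlinarith [sq_nonneg A']
    rw [abs_div, abs_mul, abs_two, abs_of_pos hh, div_le_one hh] at h1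
    linarith

theorem core1 (h κ η A A' y v : ℝ) (hh : 0 < h) (hκ1 : κ ≤ 1 / 2)
    (hη : 0 < η) (hη1 : η ≤ h ^ 2 * κ / 100) (hh1 : h ≤ 1) (hκ : 0 < κ) (hA : |A - A'| ≤ 4 * η)
    (hy : A' ^ 2 + (2 * y / h) ^ 2 = 1) (hq : A ^ 2 + (2 * v / h) ^ 2 ≤ 1 - κ) :
    |v| + η < |y| := by
  obtain ⟨h1, h2⟩ := core0 h κ η A A' y hh hκ1 hη hη1 hh1 hκ hA hy
  have h3 := abs_le.1 h1
  have hv : |v| ≤ h / 2 := by
    have h4 : |2 * v / h| ≤ 1 := by
      apply abs_le_of_sq_le_sq _ zero_le_one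
      nlinarith [sq_nonneg A]
    rw [abs_div, abs_mul, abs_two, abs_of_pos hh, div_le_one hh] at h4
    linarith
  have h5 : κ / 2 ≤ (2 * y / h) ^ 2 - (2 * v / h) ^ 2 := by linarith
  have h6 : h ^ 2 * κ / 8 ≤ y ^ 2 - v ^ 2 := by
    have e : (2 * y / h) ^ 2 - (2 * v / h) ^ 2 = 4 * (y ^ 2 - v ^ 2) / h ^ 2 := by
      field_simp
      ring
    rw [e, le_div_iff₀ (by positivity)] at h5
    nlinarith
  by_contra h7
  rw [not_lt] at h7
  have h8 := abs_nonneg y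
  have h9 := abs_nonneg v
  have h10 : |y| ^ 2 ≤ (|v| + η) ^ 2 := pow_le_pow_left₀ h8 h7 2
  have hη3 : η ≤ 1 := by nlinarith
  have h11 : h ^ 2 * κ > 0 := by positivity
  rw [← sq_abs y, ← sq_abs v] at h6
  nlinarith

theorem core2 (h κ η A A' y v : ℝ) (hh : 0 < h) (hκ1 : κ ≤ 1 / 2)
    (hη : 0 < η) (hη1 : η ≤ h ^ 2 * κ / 100) (hh1 : h ≤ 1) (hκ : 0 < κ) (hA : |A - A'| ≤ 4 * η)
    (hy : A' ^ 2 + (2 * y / h) ^ 2 = 1) (hq : 1 + κ ≤ A ^ 2 + (2 * v / h) ^ 2) :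
    |y| + η < |v| := by
  obtain ⟨h1, h2⟩ := core0 h κ η A A' y hh hκ1 hη hη1 hh1 hκ hA hy
  have h3 := abs_le.1 h1
  have h5 : κ / 2 ≤ (2 * v / h) ^ 2 - (2 * y / h) ^ 2 := by linarith
  have h6 : h ^ 2 * κ / 8 ≤ v ^ 2 - y ^ 2 := by
    have e : (2 * v / h) ^ 2 - (2 * y / h) ^ 2 = 4 * (v ^ 2 - y ^ 2) / h ^ 2 := by
      field_simp
      ring
    rw [e, le_div_iff₀ (by positivity)] at h5
    nlinarith
  by_contra h7
  rw [not_lt] at h7
  have h8 := abs_nonneg y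
  have h9 := abs_nonneg v
  have h10 : |v| ^ 2 ≤ (|y| + η) ^ 2 := pow_le_pow_left₀ h9 h7 2
  have hη3 : η ≤ 1 := by nlinarith
  have h11 : h ^ 2 * κ > 0 := by positivity
  rw [← sq_abs y, ← sq_abs v] at h6
  nlinarith

/-! ### The loop -/

/-- the vertices -/
def Gf (m : ℕ) (f : ZMod m → ℤ × ℤ) (k : ℕ) : ℤ × ℤ := f (k : ZMod m)

theorem Gf_step {m : ℕ} {f : ZMod m → ℤ × ℤ} (hf : IsLoop m f) (k : ℕ) :
    |(Gf m f (k + 1)).1 - (Gf m f k).1| ≤ 1 := by
  have h := hf.2.2 (k : ZMod m)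
  have h1 : Gf m f (k + 1) = f ((k : ZMod m) + 1) := by
    unfold Gf
    push_cast
    rfl
  rw [h1]
  have h2 := abs_nonneg ((f ((k : ZMod m) + 1)).2 - (f (k : ZMod m)).2)
  unfold Gf
  omega

theorem Gf_zero {m : ℕ} {f : ZMod m → ℤ × ℤ} (hf : IsLoop m f) : (Gf m f 0).1 = 0 := by
  unfold Gf
  rw [Nat.cast_zero, hf.1]
  rfl

theorem Gf_m {m : ℕ} {f : ZMod m → ℤ × ℤ} : Gf m f m = Gf m f 0 := by
  unfold Gf
  rw [ZMod.natCast_self, Nat.cast_zero]

theorem Gf_lb {m : ℕ} {f : ZMod m → ℤ × ℤ} (hf : IsLoop m f) (k : ℕ) :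
    -(k : ℤ) ≤ (Gf m f k).1 := by
  induction k with
  | zero => rw [Gf_zero hf]; simp
  | succ k ih =>
    have := abs_le.1 (Gf_step hf k)
    push_cast
    omega

theorem Above_iff {m : ℕ} {f : ZMod m → ℤ × ℤ} (a b : ℤ) (k : ℕ) :
    Above m f a b (k : ZMod m) ↔ Cr (fun k => (Gf m f k).1) a k ∧ b < (Gf m f k).2 := by
  unfold Above Cr Gf
  push_cast
  rfl

theorem ell_re (h t : ℝ) : (ell h t).re = (Real.cos (2 * Real.pi * t) - 1) / 2 := rfl

theorem ell_im (h t : ℝ) : (ell h t).im = h / 2 * Real.sin (2 * Real.pi * t) := rfl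

theorem ell_eq (h t : ℝ) (hh : 0 < h) :
    (2 * (ell h t).re + 1) ^ 2 + (2 * (ell h t).im / h) ^ 2 = 1 := by
  rw [ell_re, ell_im]
  have e : 2 * (h / 2 * Real.sin (2 * Real.pi * t)) / h = Real.sin (2 * Real.pi * t) := by
    field_simp
  rw [e]
  have := Real.sin_sq_add_cos_sq (2 * Real.pi * t)
  nlinarith

theorem im_nonpos (h : ℝ) (hh : 0 < h) (k m : ℕ) (hm : 0 < m) (h3 : m ≤ 2 * k) (hk : k ≤ m) :
    (ell h ((k : ℝ) / m)).im ≤ 0 := by
  rw [ell_im]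
  have h6 : Real.sin (2 * Real.pi * ((k : ℝ) / m)) ≤ 0 := by
    have e : Real.sin (2 * Real.pi * ((k : ℝ) / m)) =
        -Real.sin (2 * Real.pi * ((k : ℝ) / m) - Real.pi) := by
      rw [Real.sin_sub_pi, neg_neg]
    rw [e, neg_nonpos]
    have hm' : (0 : ℝ) < m := by exact_mod_cast hm
    have h3' : (m : ℝ) ≤ 2 * k := by exact_mod_cast h3
    have hk' : (k : ℝ) ≤ m := by exact_mod_cast hk
    have h7 : 1 / 2 ≤ (k : ℝ) / m := by
      rw [le_div_iff₀ hm']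
      linarith
    have h8 : (k : ℝ) / m ≤ 1 := by
      rw [div_le_one hm']
      exact hk'
    have := Real.pi_pos
    apply Real.sin_nonneg_of_nonneg_of_le_pi
    · nlinarith
    · nlinarith
  exact mul_nonpos_of_nonneg_of_nonpos (by positivity) h6

theorem im_nonneg (h : ℝ) (hh : 0 < h) (k m : ℕ) (hm : 0 < m) (h3 : 2 * k ≤ m) :
    0 ≤ (ell h ((k : ℝ) / m)).im := by
  rw [ell_im]
  have h6 : 0 ≤ Real.sin (2 * Real.pi * ((k : ℝ) / m)) := by
    have hm' : (0 : ℝ) < m := by exact_mod_cast hm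
    have h3' : 2 * (k : ℝ) ≤ m := by exact_mod_cast h3
    have h7 : (k : ℝ) / m ≤ 1 / 2 := by
      rw [div_le_iff₀ hm']
      linarith
    have h8 : 0 ≤ (k : ℝ) / m := by positivity
    have := Real.pi_pos
    apply Real.sin_nonneg_of_nonneg_of_le_pi
    · positivity
    · nlinarith
  positivity

theorem re_half (h : ℝ) (j m : ℕ) (hm : 0 < m) (hj1 : m ≤ 2 * j) (hj2 : 2 * j ≤ m + 1) :
    (ell h ((j : ℝ) / m)).re ≤ -1 + 5 / (2 * (m : ℝ) ^ 2) := by
  have hm' : (0 : ℝ) < m := by exact_mod_cast hm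
  have hj1' : (m : ℝ) ≤ 2 * j := by exact_mod_cast hj1
  have hj2' : 2 * (j : ℝ) ≤ m + 1 := by exact_mod_cast hj2
  rw [ell_re]
  have e : Real.cos (2 * Real.pi * ((j : ℝ) / m)) =
      -Real.cos (2 * Real.pi * ((j : ℝ) / m) - Real.pi) := by
    rw [Real.cos_sub_pi, neg_neg]
  have h1 := Real.one_sub_sq_div_two_le_cos (x := 2 * Real.pi * ((j : ℝ) / m) - Real.pi)
  have h2 : (2 * Real.pi * ((j : ℝ) / m) - Real.pi) ^ 2 ≤ 10 / (m : ℝ) ^ 2 := by
    have e2 : (2 * Real.pi * ((j : ℝ) / m) - Real.pi) ^ 2 =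
        Real.pi ^ 2 * (2 * j - m) ^ 2 / (m : ℝ) ^ 2 := by
      field_simp
    rw [e2]
    apply div_le_div_of_nonneg_right _ (by positivity)
    have h3 : Real.pi ^ 2 ≤ 10 := by
      have := Real.pi_lt_d2
      have := Real.pi_pos
      nlinarith
    have h4 : (2 * (j : ℝ) - m) ^ 2 ≤ 1 := by nlinarith
    calc Real.pi ^ 2 * (2 * (j : ℝ) - m) ^ 2 ≤ 10 * 1 :=
          mul_le_mul h3 h4 (sq_nonneg _) (by norm_num)
      _ = 10 := by norm_num
  have e3 : 5 / (2 * (m : ℝ) ^ 2) = 10 / (m : ℝ) ^ 2 / 4 := by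
    field_simp
    norm_num
  rw [e, e3]
  linarith

section loop

variable {h κ η S : ℝ} {m : ℕ} {f : ZMod m → ℤ × ℤ}

theorem near (hn : ∀ k : ℕ, k < m → ‖pt (f (k : ZMod m)) - S * ell h ((k : ℝ) / m)‖ ≤ η * S)
    (k : ℕ) (hk : k < m) : |((Gf m f k).1 : ℝ) - S * (ell h ((k : ℝ) / m)).re| ≤ η * S ∧
      |((Gf m f k).2 : ℝ) - S * (ell h ((k : ℝ) / m)).im| ≤ η * S := by
  have h1 := hn k hk
  constructor
  · refine le_trans ?_ h1
    have h2 := Complex.abs_re_le_norm (pt (f (k : ZMod m)) - S * ell h ((k : ℝ) / m))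
    rw [Complex.sub_re, pt_re, Complex.re_ofReal_mul] at h2
    exact h2
  · refine le_trans ?_ h1
    have h2 := Complex.abs_im_le_norm (pt (f (k : ZMod m)) - S * ell h ((k : ℝ) / m))
    rw [Complex.sub_im, pt_im, Complex.im_ofReal_mul] at h2
    exact h2

theorem cross_near (hS : 0 < S) (hS1 : 1 / S ≤ η)
    (hn : ∀ k : ℕ, k < m → ‖pt (f (k : ZMod m)) - S * ell h ((k : ℝ) / m)‖ ≤ η * S)
    (a : ℤ) (k : ℕ) (hk : k < m) (hc : Cr (fun k => (Gf m f k).1) a k) :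
    |(2 * ((a + 1 / 2) / S) + 1) - (2 * (ell h ((k : ℝ) / m)).re + 1)| ≤ 4 * η := by
  have h1 := abs_le.1 (near hn k hk).1
  have h2 : |((Gf m f k).1 : ℝ) - (a + 1 / 2)| ≤ 1 / 2 := by
    rcases hc with hc | hc
    · have h3 : (Gf m f k).1 = a := hc.1
      rw [h3, abs_le]
      constructor <;> linarith
    · have h3 : (Gf m f k).1 = a + 1 := hc.1
      rw [h3, abs_le]
      push_cast
      constructor <;> linarith
  have h4 := abs_le.1 h2
  obtain ⟨x, hx⟩ : ∃ x, x = (ell h ((k : ℝ) / m)).re := ⟨_, rfl⟩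
  rw [← hx] at h1 ⊢
  obtain ⟨u, hu⟩ : ∃ u, u = ((a : ℝ) + 1 / 2) / S := ⟨_, rfl⟩
  have hu1 : (a : ℝ) + 1 / 2 = S * u := by
    rw [hu]
    field_simp
  rw [← hu]
  rw [hu1] at h4
  have h5 : 1 ≤ η * S := by
    rw [div_le_iff₀ hS] at hS1
    exact hS1
  have h6 : |S * (u - x)| ≤ S * (2 * η) := by
    rw [abs_le]
    constructor <;> nlinarith
  rw [abs_mul, abs_of_pos hS] at h6
  have h7 : |u - x| ≤ 2 * η := le_of_mul_le_mul_left h6 hS
  have h8 := abs_le.1 h7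
  rw [abs_le]
  constructor <;> linarith

theorem inside (hh : 0 < h) (hκ1 : κ ≤ 1 / 2) (hη : 0 < η) (hη1 : η ≤ h ^ 2 * κ / 100)
    (hh1 : h ≤ 1) (hκ : 0 < κ) (hS : 0 < S) (hS1 : 1 / S ≤ η) (hm : 4 ≤ m) (hf : IsLoop m f)
    (hn : ∀ k : ℕ, k < m → ‖pt (f (k : ZMod m)) - S * ell h ((k : ℝ) / m)‖ ≤ η * S)
    (a b : ℤ)
    (hq : (2 * ((a + 1 / 2) / S) + 1) ^ 2 + (2 * ((b + 1 / 2) / S) / h) ^ 2 ≤ 1 - κ) :
    Encl m f (a, b) := by
  classical
  have : NeZero m := ⟨by omega⟩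
  obtain ⟨u, hu⟩ : ∃ u, u = ((a : ℝ) + 1 / 2) / S := ⟨_, rfl⟩
  obtain ⟨v, hv⟩ : ∃ v, v = ((b : ℝ) + 1 / 2) / S := ⟨_, rfl⟩
  have hu1 : (a : ℝ) + 1 / 2 = S * u := by
    rw [hu]
    field_simp
  have hv1 : (b : ℝ) + 1 / 2 = S * v := by
    rw [hv]
    field_simp
  have hm0 : (4 : ℝ) ≤ m := by exact_mod_cast hm
  have hh2 : h ^ 2 ≤ 1 := by nlinarith
  have hη2 : η ≤ κ / 100 := by nlinarith
  have key : ∀ k < m, Cr (fun k => (Gf m f k).1) a k →
      |v| + η < |(ell h ((k : ℝ) / m)).im| := by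
    intro k hk hc
    have h1 := cross_near hS hS1 hn a k hk hc
    refine core1 h κ η _ _ _ v hh hκ1 hη hη1 hh1 hκ h1 (ell_eq h _ hh) ?_
    rw [hv]
    exact hq
  have hsub : (Finset.range m).filter (fun k : ℕ => Above m f a b (k : ZMod m)) =
      (Finset.range ((m + 1) / 2)).filter (Cr (fun k => (Gf m f k).1) a) := by
    ext k
    rw [Finset.mem_filter, Finset.mem_filter, Finset.mem_range, Finset.mem_range, Above_iff]
    constructor
    · rintro ⟨hk, hc, hb⟩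
      refine ⟨?_, hc⟩
      by_contra h2
      have h3 : m ≤ 2 * k := by omega
      have h4 := key k hk hc
      have h5 : (ell h ((k : ℝ) / m)).im ≤ 0 := im_nonpos h hh k m (by omega) h3 hk.le
      rw [abs_of_nonpos h5] at h4
      have h9 := abs_le.1 (near hn k hk).2
      have h10 : (b : ℝ) + 1 ≤ ((Gf m f k).2 : ℝ) := by exact_mod_cast hb
      have h11 := neg_abs_le v
      have h12 : S * (ell h ((k : ℝ) / m)).im ≤ S * (v - η) :=
        mul_le_mul_of_nonneg_left (by linarith) hS.le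
      linarith
    · rintro ⟨hk, hc⟩
      have hk1 : k < m := by omega
      refine ⟨hk1, hc, ?_⟩
      have h3 : 2 * k ≤ m := by omega
      have h4 := key k hk1 hc
      have h5 : 0 ≤ (ell h ((k : ℝ) / m)).im := im_nonneg h hh k m (by omega) h3
      rw [abs_of_nonneg h5] at h4
      have h9 := abs_le.1 (near hn k hk1).2
      have h11 := le_abs_self v
      have h13 : S * (v + η) ≤ S * (ell h ((k : ℝ) / m)).im :=
        mul_le_mul_of_nonneg_left (by linarith) hS.le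
      have h12 : (b : ℝ) < ((Gf m f k).2 : ℝ) := by linarith
      exact_mod_cast h12
  show Odd (Nat.card {k : ZMod m // Above m f a b k})
  rw [crd, hsub, par _ (fun k => Gf_step hf k)]
  show ¬ ((Gf m f 0).1 ≤ a ↔ (Gf m f ((m + 1) / 2)).1 ≤ a)
  rw [Gf_zero hf]
  rw [← hu] at hq
  have hu2 : (2 * u + 1) ^ 2 ≤ (1 - κ / 2) ^ 2 := by
    nlinarith [sq_nonneg (2 * ((b + 1 / 2) / S) / h), sq_nonneg κ]
  have hu3 := abs_le.1 (abs_le_of_sq_le_sq hu2 (by linarith))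
  have ha : ¬ 0 ≤ a := by
    intro h1
    have h2 : (0 : ℝ) ≤ a := by exact_mod_cast h1
    have h3 : S * u ≤ S * 0 := mul_le_mul_of_nonneg_left (by linarith) hS.le
    linarith
  obtain ⟨j, hj⟩ : ∃ j, j = (m + 1) / 2 := ⟨_, rfl⟩
  rw [← hj]
  have hj1 : m ≤ 2 * j := by omega
  have hj2 : 2 * j ≤ m + 1 := by omega
  have hjm : j < m := by omega
  have hX := re_half h j m (by omega) hj1 hj2
  have h1 := abs_le.1 (near hn j hjm).1
  have h2 := Gf_lb hf j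
  have h2' : -(j : ℝ) ≤ ((Gf m f j).1 : ℝ) := by exact_mod_cast h2
  have h3 : 5 / (2 * (m : ℝ) ^ 2) ≤ 1 / 6 := by
    rw [div_le_div_iff₀ (by positivity) (by norm_num)]
    have h4 : (4 : ℝ) ^ 2 ≤ (m : ℝ) ^ 2 := pow_le_pow_left₀ (by norm_num) hm0 2
    linarith
  obtain ⟨x, hx⟩ : ∃ x, x = (ell h ((j : ℝ) / m)).re := ⟨_, rfl⟩
  rw [← hx] at hX h1
  have hη100 : η ≤ 1 / 100 := by linarith
  have hS5 : 1 ≤ η * S := by
    rw [div_le_iff₀ hS] at hS1
    exact hS1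
  have hηS : η * S ≤ 1 / 100 * S := mul_le_mul_of_nonneg_right hη100 hS.le
  have h4 : S / 2 ≤ m := by
    have h5 : (j : ℝ) ≤ m := by exact_mod_cast hjm.le
    have h6 : S * x ≤ S * (-1 + 1 / 6) := mul_le_mul_of_nonneg_left (by linarith) hS.le
    linarith
  have h5 : 5 / (2 * (m : ℝ) ^ 2) ≤ η := by
    rw [div_le_iff₀ (by positivity)]
    have h7 : η * (S / 2) ≤ η * m := mul_le_mul_of_nonneg_left h4 hη.le
    have h8 : 1 / 2 ≤ η * m := by linarith
    have h9 : 5 ≤ (m : ℝ) := by linarith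
    have h10 : 2 * (m : ℝ) * (1 / 2) ≤ 2 * (m : ℝ) * (η * m) :=
      mul_le_mul_of_nonneg_left h8 (by positivity)
    have e : η * (2 * (m : ℝ) ^ 2) = 2 * (m : ℝ) * (η * m) := by ring
    rw [e]
    linarith
  have h6 : (Gf m f j).1 ≤ a := by
    have h7 : S * x ≤ S * (-1 + η) := mul_le_mul_of_nonneg_left (by linarith) hS.le
    have h8 : S * (-1 + κ / 4) ≤ S * u := mul_le_mul_of_nonneg_left (by linarith) hS.le
    have h9 : S * (2 * η) ≤ S * (κ / 4) := mul_le_mul_of_nonneg_left (by linarith) hS.le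
    have h10 : ((Gf m f j).1 : ℝ) < a + 1 := by linarith
    have h11 : (Gf m f j).1 < a + 1 := by exact_mod_cast h10
    omega
  tauto

theorem outside (hh : 0 < h) (hκ1 : κ ≤ 1 / 2) (hη : 0 < η) (hη1 : η ≤ h ^ 2 * κ / 100)
    (hh1 : h ≤ 1) (hκ : 0 < κ) (hS : 0 < S) (hS1 : 1 / S ≤ η) (hm : 4 ≤ m) (hf : IsLoop m f)
    (hn : ∀ k : ℕ, k < m → ‖pt (f (k : ZMod m)) - S * ell h ((k : ℝ) / m)‖ ≤ η * S)
    (a b : ℤ)
    (hq : 1 + κ ≤ (2 * ((a + 1 / 2) / S) + 1) ^ 2 + (2 * ((b + 1 / 2) / S) / h) ^ 2) :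
    ¬ Encl m f (a, b) := by
  classical
  have : NeZero m := ⟨by omega⟩
  obtain ⟨v, hv⟩ : ∃ v, v = ((b : ℝ) + 1 / 2) / S := ⟨_, rfl⟩
  have hv1 : (b : ℝ) + 1 / 2 = S * v := by
    rw [hv]
    field_simp
  have key : ∀ k < m, Cr (fun k => (Gf m f k).1) a k →
      |(ell h ((k : ℝ) / m)).im| + η < |v| := by
    intro k hk hc
    have h1 := cross_near hS hS1 hn a k hk hc
    refine core2 h κ η _ _ _ v hh hκ1 hη hη1 hh1 hκ h1 (ell_eq h _ hh) ?_
    rw [hv]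
    exact hq
  show ¬ Odd (Nat.card {k : ZMod m // Above m f a b k})
  rw [crd]
  rcases le_or_gt 0 v with hv0 | hv0
  · have hsub : (Finset.range m).filter (fun k : ℕ => Above m f a b (k : ZMod m)) = ∅ := by
      apply Finset.filter_eq_empty_iff.2
      intro k hk
      rw [Finset.mem_range] at hk
      rw [Above_iff]
      rintro ⟨hc, hb⟩
      have h4 := key k hk hc
      rw [abs_of_nonneg hv0] at h4
      have h9 := abs_le.1 (near hn k hk).2
      have h10 : (b : ℝ) + 1 ≤ ((Gf m f k).2 : ℝ) := by exact_mod_cast hb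
      have h11 := le_abs_self (ell h ((k : ℝ) / m)).im
      have h12 : S * (ell h ((k : ℝ) / m)).im ≤ S * (v - η) :=
        mul_le_mul_of_nonneg_left (by linarith) hS.le
      linarith
    rw [hsub]
    simp
  · have hsub : (Finset.range m).filter (fun k : ℕ => Above m f a b (k : ZMod m)) =
        (Finset.range m).filter (Cr (fun k => (Gf m f k).1) a) := by
      apply Finset.filter_congr
      intro k hk
      rw [Finset.mem_range] at hk
      rw [Above_iff]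
      refine ⟨fun h => h.1, fun hc => ⟨hc, ?_⟩⟩
      have h4 := key k hk hc
      rw [abs_of_neg hv0] at h4
      have h9 := abs_le.1 (near hn k hk).2
      have h11 := neg_abs_le (ell h ((k : ℝ) / m)).im
      have h13 : S * (v + η) ≤ S * (ell h ((k : ℝ) / m)).im :=
        mul_le_mul_of_nonneg_left (by linarith) hS.le
      have h12 : (b : ℝ) < ((Gf m f k).2 : ℝ) := by linarith
      exact_mod_cast h12
    rw [hsub, par _ (fun k => Gf_step hf k)]
    show ¬ ¬ ((Gf m f 0).1 ≤ a ↔ (Gf m f m).1 ≤ a)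
    rw [Gf_m]
    simp

end loop

/-! ### The area -/

theorem q_near (A B A' B' δ R : ℝ) (hA : |A' - A| ≤ δ) (hB : |B' - B| ≤ δ)
    (hδ1 : δ ≤ 1) (hR : A ^ 2 + B ^ 2 ≤ R) (hR2 : R ≤ 2) :
    A' ^ 2 + B' ^ 2 ≤ R + 8 * δ := by
  have hδ : 0 ≤ δ := (abs_nonneg _).trans hA
  have hA1 : |A| ≤ 3 / 2 := by
    apply abs_le_of_sq_le_sq _ (by norm_num)
    nlinarith [sq_nonneg B]
  have hB1 : |B| ≤ 3 / 2 := by
    apply abs_le_of_sq_le_sq _ (by norm_num)
    nlinarith [sq_nonneg A]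
  have key : ∀ x x' : ℝ, |x' - x| ≤ δ → |x| ≤ 3 / 2 → x' ^ 2 ≤ x ^ 2 + 4 * δ := by
    intro x x' h1 h2
    have h3 := abs_le.1 h1
    have h4 := abs_le.1 h2
    have h5 : |x' + x| ≤ 4 := by
      rw [abs_le]
      constructor <;> linarith
    have h6 : (x' - x) * (x' + x) ≤ δ * 4 := by
      refine (le_abs_self _).trans ?_
      rw [abs_mul]
      exact mul_le_mul h1 h5 (abs_nonneg _) hδ
    linarith [show (x' - x) * (x' + x) = x' ^ 2 - x ^ 2 by ring]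
  have h1 := key A A' hA hA1
  have h2 := key B B' hB hB1
  linarith

theorem cell_near (h S : ℝ) (hh : 0 < h) (hS : 0 < S) (c : ℤ × ℤ) (z : ℂ) (hz : z ∈ hc c) :
    |(2 * (z.re / S) + 1) - (2 * ((c.1 + 1 / 2) / S) + 1)| ≤ 1 / S ∧
    |2 * (z.im / S) / h - 2 * ((c.2 + 1 / 2) / S) / h| ≤ 1 / (S * h) := by
  obtain ⟨⟨h1, h2⟩, h3, h4⟩ := hz
  constructor
  · have e : (2 * (z.re / S) + 1) - (2 * (((c.1 : ℝ) + 1 / 2) / S) + 1) =
        (2 * (z.re - (c.1 + 1 / 2))) / S := by ring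
    rw [e, abs_div, abs_of_pos hS]
    apply div_le_div_of_nonneg_right _ hS.le
    rw [abs_le]
    constructor <;> linarith
  · have e : 2 * (z.im / S) / h - 2 * (((c.2 : ℝ) + 1 / 2) / S) / h =
        (2 * (z.im - (c.2 + 1 / 2))) / (S * h) := by
      field_simp
    have hSh : 0 < S * h := mul_pos hS hh
    rw [e, abs_div, abs_of_pos hSh]
    apply div_le_div_of_nonneg_right _ hSh.le
    rw [abs_le]
    constructor <;> linarith

theorem t_ELL : S_ELL := by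
  intro h hh hh1 ε hε
  obtain ⟨κ, hκd⟩ : ∃ κ, κ = min (ε / 2) (1 / 2) := ⟨_, rfl⟩
  have hκ : 0 < κ := by rw [hκd]; positivity
  have hκ1 : κ ≤ 1 / 2 := by rw [hκd]; exact min_le_right _ _
  have hκ2 : κ ≤ ε / 2 := by rw [hκd]; exact min_le_left _ _
  obtain ⟨η, hηd⟩ : ∃ η, η = h ^ 2 * κ / 100 := ⟨_, rfl⟩
  have hη : 0 < η := by rw [hηd]; positivity
  refine ⟨η, hη, fun m f S hm hf hS1 hn => ?_⟩
  have hS : 0 < S := lt_of_lt_of_le (by positivity) hS1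
  have hS2 : 1 / S ≤ η := by
    rw [div_le_iff₀ hS]
    rw [div_le_iff₀ hη] at hS1
    linarith
  have hI := fun a b => inside hh hκ1 hη hηd.le hh1 hκ hS hS2 hm hf hn a b
  have hO := fun a b => outside hh hκ1 hη hηd.le hh1 hκ hS hS2 hm hf hn a b
  obtain ⟨δ, hδd⟩ : ∃ δ, δ = η / h := ⟨_, rfl⟩
  have hδκ : 8 * δ ≤ κ := by
    have e : δ = h * κ / 100 := by
      rw [hδd, hηd]
      field_simp
    rw [e]
    nlinarith
  have hδ1 : δ ≤ 1 := by linarith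
  have hηδ : η ≤ δ := by
    rw [hδd, le_div_iff₀ hh]
    nlinarith
  have hSδ : 1 / S ≤ δ := hS2.trans hηδ
  have hSδ' : 1 / (S * h) ≤ δ := by
    rw [hδd, ← div_div]
    exact div_le_div_of_nonneg_right hS2 hh.le
  have hO' : ∀ c : ℤ × ℤ, Encl m f c →
      (2 * ((c.1 + 1 / 2) / S) + 1) ^ 2 + (2 * ((c.2 + 1 / 2) / S) / h) ^ 2 ≤ 1 + κ := by
    intro c hc
    by_contra h1
    rw [not_le] at h1
    exact hO c.1 c.2 h1.le hc
  have hfin : {c : ℤ × ℤ | Encl m f c}.Finite := by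
    obtain ⟨M, hM⟩ := exists_nat_gt (2 * S + 1)
    refine (Set.finite_Icc ((-(M : ℤ), -(M : ℤ))) ((M : ℤ), (M : ℤ))).subset ?_
    rintro ⟨a, b⟩ hab
    have h1 := hO' (a, b) hab
    obtain ⟨u, hu⟩ : ∃ u, u = ((a : ℝ) + 1 / 2) / S := ⟨_, rfl⟩
    obtain ⟨v, hv⟩ : ∃ v, v = ((b : ℝ) + 1 / 2) / S := ⟨_, rfl⟩
    have hu1 : (a : ℝ) + 1 / 2 = S * u := by
      rw [hu]
      field_simp
    have hv1 : (b : ℝ) + 1 / 2 = S * v := by
      rw [hv]
      field_simp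
    simp only at h1
    rw [← hu, ← hv] at h1
    have h2 : |2 * u + 1| ≤ 2 := by
      apply abs_le_of_sq_le_sq _ (by norm_num)
      nlinarith [sq_nonneg (2 * v / h)]
    have h3 : |2 * v / h| ≤ 2 := by
      apply abs_le_of_sq_le_sq _ (by norm_num)
      nlinarith [sq_nonneg (2 * u + 1)]
    rw [abs_div, abs_mul, abs_two, abs_of_pos hh, div_le_iff₀ hh] at h3
    have h4 := abs_le.1 h2
    have h5 : |v| ≤ 1 := by linarith
    have h6 := abs_le.1 h5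
    have u1 : S * u ≤ S * (1 / 2) := mul_le_mul_of_nonneg_left (by linarith) hS.le
    have u2 : S * (-(3 / 2)) ≤ S * u := mul_le_mul_of_nonneg_left (by linarith) hS.le
    have v1 : S * v ≤ S * 1 := mul_le_mul_of_nonneg_left (by linarith) hS.le
    have v2 : S * (-1) ≤ S * v := mul_le_mul_of_nonneg_left (by linarith) hS.le
    have a1 : (-(M : ℝ)) ≤ a := by linarith
    have a2 : (a : ℝ) ≤ M := by linarith
    have b1 : (-(M : ℝ)) ≤ b := by linarith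
    have b2 : (b : ℝ) ≤ M := by linarith
    refine ⟨Prod.mk_le_mk.2 ⟨?_, ?_⟩, Prod.mk_le_mk.2 ⟨?_, ?_⟩⟩
    · exact_mod_cast a1
    · exact_mod_cast b1
    · exact_mod_cast a2
    · exact_mod_cast b2
  obtain ⟨F, hF⟩ : ∃ F : Finset (ℤ × ℤ), F = hfin.toFinset := ⟨_, rfl⟩
  have hFm : ∀ c, c ∈ F ↔ Encl m f c := by
    intro c
    rw [hF, Set.Finite.mem_toFinset]
    rfl
  have harea : area m f = F.card := by
    have h1 : area m f = {c : ℤ × ℤ | Encl m f c}.ncard := rfl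
    rw [h1, Set.ncard_eq_toFinset_card _ hfin, hF]
  have hsub1 : EL h S (1 - 2 * κ) ⊆ ⋃ c ∈ F, hc c := by
    intro z hz
    have hzc : z ∈ hc (⌊z.re⌋, ⌊z.im⌋) :=
      ⟨⟨Int.floor_le _, Int.lt_floor_add_one _⟩, ⟨Int.floor_le _, Int.lt_floor_add_one _⟩⟩
    refine Set.mem_iUnion₂.2 ⟨(⌊z.re⌋, ⌊z.im⌋), (hFm _).2 (hI _ _ ?_), hzc⟩
    obtain ⟨h1, h2⟩ := cell_near h S hh hS _ z hzc
    rw [abs_sub_comm] at h1 h2
    have h3 := q_near _ _ _ _ δ _ (h1.trans hSδ) (h2.trans hSδ') hδ1 hz (by linarith)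
    refine h3.trans ?_
    linarith
  have hsub2 : ⋃ c ∈ F, hc c ⊆ EL h S (1 + 2 * κ) := by
    intro z hz
    obtain ⟨c, hcF, hzc⟩ := Set.mem_iUnion₂.1 hz
    obtain ⟨h1, h2⟩ := cell_near h S hh hS _ z hzc
    have h3 := q_near _ _ _ _ δ _ (h1.trans hSδ) (h2.trans hSδ') hδ1 (hO' c ((hFm c).1 hcF))
      (by linarith)
    show _ ≤ 1 + 2 * κ
    refine h3.trans ?_
    linarith
  have hv1 := measure_mono (μ := volume) hsub1
  have hv2 := measure_mono (μ := volume) hsub2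
  rw [vol_union, EL_vol h S _ hh hS (by linarith), ← ENNReal.ofReal_natCast,
    ENNReal.ofReal_le_ofReal_iff (Nat.cast_nonneg _)] at hv1
  have hpi := Real.pi_pos
  have hpi4 := Real.pi_lt_four
  rw [vol_union, EL_vol h S _ hh hS (by linarith), ← ENNReal.ofReal_natCast,
    ENNReal.ofReal_le_ofReal_iff (by positivity)] at hv2
  rw [harea]
  have hS2 : 0 < S ^ 2 := by positivity
  have w1 : Real.pi * h / 4 * (1 - 2 * κ) ≤ (F.card : ℝ) / S ^ 2 := by
    rw [le_div_iff₀ hS2]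
    linarith
  have w2 : (F.card : ℝ) / S ^ 2 ≤ Real.pi * h / 4 * (1 + 2 * κ) := by
    rw [div_le_iff₀ hS2]
    linarith
  have w3 : Real.pi * h / 4 ≤ 1 := by nlinarith
  have w4 : Real.pi * h / 4 * (2 * κ) ≤ 1 * (2 * κ) :=
    mul_le_mul_of_nonneg_right w3 (by linarith)
  rw [abs_le]
  constructor <;> linarith

end Pool.Agent.N346.PG
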